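import Pool.Agent.Work.MP_959bfa_wn.Interface2

/-!
MP_959bfa_co, block LRC: if every member of `F` is crossed by at least `a` and less than `2 a`
members of `B`, then at most `s` members of `F` cross a given one (`s` the depth of `B`).
-/

namespace Wn

open Finset

theorem LRC : stmt_LRC := by
  classical
  intro ι R B F s a hFB hNe hD hF i hi
  set G := fl F (fun j => Cr R j i) with hG
  rcases G.eq_empty_or_nonempty with h0 | hne
  · rw [h0]; simp
  have hGm : ∀ j ∈ G, j ∈ F ∧ Cr R j i := fun j hj => mem_fl.1 hj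
  have key : ∀ j ∈ G, ∀ k ∈ G, (R j).l ≤ (R k).r := by
    intro j hj k hk
    obtain ⟨hjF, hji⟩ := hGm j hj
    obtain ⟨hkF, hki⟩ := hGm k hk
    have hsub : ∀ m, Cr R m i → fl B (fun v => Cr R v m) ⊆ fl B (fun v => Cr R v i) := by
      intro m hm v hv
      obtain ⟨hvB, hvm⟩ := mem_fl.1 hv
      refine mem_fl.2 ⟨hvB, ?_⟩
      obtain ⟨h1, h2, h3, h4⟩ := hvm
      obtain ⟨g1, g2, g3, g4⟩ := hm
      exact ⟨g1.trans h1, h2.trans g2, h3.trans g3, g4.trans h4⟩
    by_contra hlt
    have hdis : Disjoint (fl B (fun v => Cr R v j)) (fl B (fun v => Cr R v k)) := by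
      rw [Finset.disjoint_left]
      intro v hv hv'
      obtain ⟨hvB, h1, h2, -, -⟩ := mem_fl.1 hv
      obtain ⟨-, g1, g2, -, -⟩ := mem_fl.1 hv'
      have hn := (hNe v hvB).1
      apply hlt
      linarith
    have hu : (fl B (fun v => Cr R v j) ∪ fl B (fun v => Cr R v k)).card ≤
        (fl B (fun v => Cr R v i)).card :=
      Finset.card_le_card (Finset.union_subset (hsub j hji) (hsub k hki))
    rw [Finset.card_union_of_disjoint hdis] at hu
    have e1 := (hF j hjF).1
    have e2 := (hF k hkF).1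
    have e3 := (hF i hi).2
    omega
  obtain ⟨j0, hj0, hmax⟩ := Finset.exists_max_image G (fun j => (R j).l) hne
  have hiB := hNe i (hFB hi)
  refine le_trans (Finset.card_le_card ?_) (hD (R j0).l (R i).b)
  intro j hj
  obtain ⟨hjF, h1, h2, h3, h4⟩ := hGm j hj
  refine mem_fl.2 ⟨hFB hjF, hmax j hj, key j0 hj0 j hj, h3.le, ?_⟩
  exact le_trans hiB.2 h4.le

end Wn
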